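import Pool.Agent.Q265.UC.Uniq

/-!
# Uniform certification within stabilizer states does not imply uniform certification

On six qubits let `ψ` be the stabilizer state with the generators
`- X Z Y 1 1 1`, `Z Y 1 X 1 1`, `Z 1 X 1 Y 1`, `- 1 Z 1 Y 1 X`, `- 1 1 Y 1 Z X`, `1 1 1 X Y Z`.
No other stabilizer state has the uniform data of `ψ`, but the pure state
`(2 + i B) ψ / √5`, `B = (1 + Z₂ Z₅ + Z₃ Z₄ - Z₂ Z₃ Z₄ Z₅) / 2`, has the same uniform data.
-/

set_option autoImplicit false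

namespace Pool.Agent.Results.MP_f2ebd2_mp.SixQubits

open Matrix Finset
open scoped ComplexOrder

/-- the labels of the Pauli matrices -/
inductive Label
  | I | X | Y | Z
  deriving DecidableEq

open Label

instance : Fintype Label := ⟨{I, X, Y, Z}, by intro a; cases a <;> decide⟩

/-- operators on `N` qubits, in the computational basis -/
abbrev Op (N : ℕ) := Matrix (Fin N → Fin 2) (Fin N → Fin 2) ℂ

/-- the Pauli matrices `1, X, Y, Z` -/
def σ : Label → Matrix (Fin 2) (Fin 2) ℂ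
  | I => 1
  | X => !![0, 1; 1, 0]
  | Y => !![0, -Complex.I; Complex.I, 0]
  | Z => !![1, 0; 0, -1]

/-- the Pauli string `σ (w 0) ⊗ ... ⊗ σ (w (N - 1))` -/
def pauli {N : ℕ} (w : Fin N → Label) : Op N := fun s t => ∏ j, σ (w j) (s j) (t j)

/-- the set of the qubits on which a Pauli string acts nontrivially -/
def supp {N : ℕ} (w : Fin N → Label) : Finset (Fin N) := univ.filter fun j => w j ≠ I

/-- the number of occurrences of a label in a Pauli string -/
def cnt {N : ℕ} (w : Fin N → Label) (l : Label) : ℕ := (univ.filter fun j => w j = l).card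

/-- the symmetrized operator `S(a, b, c; J)`: the sum of all Pauli strings with support `J` that
contain `a` letters `X`, `b` letters `Y` and `c` letters `Z` -/
def S {N : ℕ} (a b c : ℕ) (J : Finset (Fin N)) : Op N :=
  ∑ w ∈ univ.filter (fun w : Fin N → Label =>
    supp w = J ∧ cnt w X = a ∧ cnt w Y = b ∧ cnt w Z = c), pauli w

/-- two operators have the same uniform data -/
def SameData {N : ℕ} (ρ ρ' : Op N) : Prop :=
  ∀ (J : Finset (Fin N)) (a b c : ℕ), J.Nonempty → a + b + c = J.card →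
    (ρ * S a b c J).trace = (ρ' * S a b c J).trace

/-- density matrices -/
def IsDensity {N : ℕ} (ρ : Op N) : Prop := ρ.PosSemidef ∧ ρ.trace = 1

/-- `ρ` is (the density matrix of) a pure state -/
def IsPure {N : ℕ} (ρ : Op N) : Prop :=
  ∃ φ : (Fin N → Fin 2) → ℂ, star φ ⬝ᵥ φ = 1 ∧ ρ = vecMulVec φ (star φ)

/-- `ρ` is (the density matrix of) a stabilizer state: a pure state `ψ` fixed by an abelian group `G`
of `2 ^ N` signed Pauli strings which does not contain `-1` -/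
def IsStabilizerState {N : ℕ} (ρ : Op N) : Prop :=
  ∃ (ψ : (Fin N → Fin 2) → ℂ) (G : Finset (Op N)), star ψ ⬝ᵥ ψ = 1 ∧ ρ = vecMulVec ψ (star ψ) ∧
    G.card = 2 ^ N ∧ (∀ g ∈ G, ∃ w, g = pauli w ∨ g = -pauli w) ∧ 1 ∈ G ∧
    (∀ g ∈ G, ∀ h ∈ G, g * h ∈ G ∧ g * h = h * g) ∧ -1 ∉ G ∧ ∀ g ∈ G, g *ᵥ ψ = ψ

/-- `ρ` is uniformly certifiable within the class `C` -/
def Certifiable {N : ℕ} (C : Op N → Prop) (ρ : Op N) : Prop :=
  ∀ ρ' : Op N, C ρ' → SameData ρ' ρ → ρ' = ρ

/-- the labels of the helper files -/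
def toL : Label → Q265.UC.Label
  | I => .I
  | X => .X
  | Y => .Y
  | Z => .Z

/-- and back -/
def ofL : Q265.UC.Label → Label
  | .I => I
  | .X => X
  | .Y => Y
  | .Z => Z

lemma ofL_toL (a : Label) : ofL (toL a) = a := by cases a <;> rfl
lemma toL_ofL (a : Q265.UC.Label) : toL (ofL a) = a := by cases a <;> rfl
lemma toL_inj {a b : Label} : toL a = toL b ↔ a = b :=
  ⟨fun h => by rw [← ofL_toL a, h, ofL_toL], fun h => by rw [h]⟩

/-- words of the helper files -/
def wE (N : ℕ) : (Fin N → Label) ≃ (Fin N → Q265.UC.Label) where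
  toFun w := fun j => toL (w j)
  invFun w := fun j => ofL (w j)
  left_inv w := by funext j; exact ofL_toL _
  right_inv w := by funext j; exact toL_ofL _

lemma pauli_eq {N : ℕ} (w : Fin N → Label) : pauli w = Q265.UC.pauli (wE N w) := by
  have h : ∀ a, σ a = Q265.UC.σ (toL a) := by intro a; cases a <;> rfl
  unfold pauli Q265.UC.pauli
  simp only [h]
  rfl

lemma S_eq {N : ℕ} (a b c : ℕ) (J : Finset (Fin N)) : S a b c J = Q265.UC.S a b c J := by
  unfold S Q265.UC.S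
  have hs : ∀ w : Fin N → Label, Q265.UC.supp (wE N w) = supp w := by
    intro w
    ext j
    unfold Q265.UC.supp supp
    rw [Finset.mem_filter, Finset.mem_filter]
    have : (wE N w) j = Q265.UC.Label.I ↔ w j = I := by
      show toL (w j) = toL I ↔ _
      exact toL_inj
    rw [Ne, this]
  have hc : ∀ (w : Fin N → Label) (l : Label), Q265.UC.cnt (wE N w) (toL l) = cnt w l := by
    intro w l
    unfold Q265.UC.cnt cnt
    congr 1
    ext j
    rw [Finset.mem_filter, Finset.mem_filter]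
    have : (wE N w) j = toL l ↔ w j = l := by
      show toL (w j) = toL l ↔ _
      exact toL_inj
    rw [this]
  refine Finset.sum_equiv (wE N) ?_ (fun w _ => pauli_eq w)
  intro w
  rw [Finset.mem_filter, Finset.mem_filter, hs, ← hc w X, ← hc w Y, ← hc w Z]
  simp only [Finset.mem_univ, true_and]
  rfl

lemma same_iff {N : ℕ} (ρ ρ' : Op N) : SameData ρ ρ' ↔ Q265.UC.SameData ρ ρ' := by
  unfold SameData Q265.UC.SameData
  simp only [S_eq]

lemma stab_iff {N : ℕ} (ρ : Op N) :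
    IsStabilizerState ρ ↔ ∃ ψ G, Q265.UC.StabW ρ ψ G := by
  have hp : ∀ g : Op N, (∃ w, g = pauli w ∨ g = -pauli w) ↔
      ∃ w, g = Q265.UC.pauli w ∨ g = -Q265.UC.pauli w := by
    intro g
    constructor
    · rintro ⟨w, h⟩
      exact ⟨wE N w, by rwa [← pauli_eq]⟩
    · rintro ⟨w, h⟩
      exact ⟨(wE N).symm w, by rw [pauli_eq, Equiv.apply_symm_apply]; exact h⟩
  constructor
  · rintro ⟨ψ, G, h1, h2, h3, h4, h5, h6, h7, h8⟩
    exact ⟨ψ, G, ⟨h1, h2, h3, fun g hg => (hp g).1 (h4 g hg), h5, h6, h7, h8⟩⟩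
  · rintro ⟨ψ, G, h⟩
    exact ⟨ψ, G, h.norm, h.rho, h.card, fun g hg => (hp g).2 (h.paulis g hg), h.one, h.mul, h.neg,
      h.fix⟩

/-- The answer to Q1 is negative: on six qubits there is a stabilizer state `ρ`, the state with the
generators below, such that no other stabilizer state has the uniform data of `ρ`, but another pure
state does. -/
theorem result :
    (∃ ρ : Op 6, IsStabilizerState ρ ∧ Certifiable IsStabilizerState ρ ∧
      (∃ ρ' : Op 6, IsPure ρ' ∧ IsDensity ρ' ∧ SameData ρ' ρ ∧ ρ' ≠ ρ) ∧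
      pauli ![X, Z, Y, I, I, I] * ρ = -ρ ∧ pauli ![Z, Y, I, X, I, I] * ρ = ρ ∧
      pauli ![Z, I, X, I, Y, I] * ρ = ρ ∧ pauli ![I, Z, I, Y, I, X] * ρ = -ρ ∧
      pauli ![I, I, Y, I, Z, X] * ρ = -ρ ∧ pauli ![I, I, I, X, Y, Z] * ρ = ρ) ∧
    ¬ ∀ (N : ℕ) (ρ : Op N), IsStabilizerState ρ → Certifiable IsStabilizerState ρ →
      Certifiable IsDensity ρ := by
  have main : ∃ ρ : Op 6, IsStabilizerState ρ ∧ Certifiable IsStabilizerState ρ ∧
      (∃ ρ' : Op 6, IsPure ρ' ∧ IsDensity ρ' ∧ SameData ρ' ρ ∧ ρ' ≠ ρ) ∧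
      pauli ![X, Z, Y, I, I, I] * ρ = -ρ ∧ pauli ![Z, Y, I, X, I, I] * ρ = ρ ∧
      pauli ![Z, I, X, I, Y, I] * ρ = ρ ∧ pauli ![I, Z, I, Y, I, X] * ρ = -ρ ∧
      pauli ![I, I, Y, I, Z, X] * ρ = -ρ ∧ pauli ![I, I, I, X, Y, Z] * ρ = ρ := by
    obtain ⟨ψ, hψ, hg⟩ := Q265.UC.exists_stab
    obtain ⟨φ, hφ, hd⟩ := Q265.UC.exists_phi hψ.norm hg
    have hgen : ∀ (w : Fin 6 → Label) (b : Bool), (wE 6 w, b) ∈ Q265.UC.gens →
        pauli w * vecMulVec ψ (star ψ) = (if b then (-1 : ℂ) else 1) • vecMulVec ψ (star ψ) := by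
      intro w b h
      rw [pauli_eq]
      exact Q265.UC.pauli_mul_rho (hg _ h)
    refine ⟨vecMulVec ψ (star ψ), (stab_iff _).2 ⟨ψ, _, hψ⟩, ?_, ?_, ?_, ?_, ?_, ?_, ?_, ?_⟩
    · intro ρ' h1 h2
      obtain ⟨χ, G, hχ⟩ := (stab_iff _).1 h1
      exact Q265.UC.unique_state hψ hg hχ ((same_iff _ _).1 h2)
    · refine ⟨vecMulVec φ (star φ), ⟨φ, hφ, rfl⟩, ⟨posSemidef_vecMulVec_self_star φ,
        Q265.UC.trace_rho hφ⟩, (same_iff _ _).2 (Q265.UC.same_data hd), ?_⟩
      intro he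
      have h1 := hd ![.X, .Z, .Y, .I, .I, .I]
      rw [he] at h1
      have h2 : Q265.UC.d0 ![.X, .Z, .Y, .I, .I, .I] = 4 := by decide +kernel
      rw [h2] at h1
      have h3 : ((4 : ℤ) : ℂ) = 0 := by linear_combination -h1
      norm_num at h3
    · rw [hgen _ true (by decide +kernel)]; simp
    · rw [hgen _ false (by decide +kernel)]; simp
    · rw [hgen _ false (by decide +kernel)]; simp
    · rw [hgen _ true (by decide +kernel)]; simp
    · rw [hgen _ true (by decide +kernel)]; simp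
    · rw [hgen _ false (by decide +kernel)]; simp
  refine ⟨main, fun hall => ?_⟩
  obtain ⟨ρ, h1, h2, ⟨ρ', -, h3, h4, h5⟩, -⟩ := main
  exact h5 (hall 6 ρ h1 h2 ρ' h3 h4)

end Pool.Agent.Results.MP_f2ebd2_mp.SixQubits
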